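import Mathlib

set_option autoImplicit false

/-!
# Eigenvalues of tensor products of endomorphisms
-/

namespace Pool.Agent.V11322.TN

open scoped TensorProduct

section char

variable {E M : Type} [Field E] [IsAlgClosed E] [AddCommGroup M] [Module E M]
  [FiniteDimensional E M]

/-- a character of a commutative algebra of endomorphisms with a given value -/
theorem exists_char {s : Set (Module.End E M)} (hs : ∀ a ∈ s, ∀ b ∈ s, a * b = b * a)
    {x : Module.End E M} (hx : x ∈ Algebra.adjoin E s) {β : E}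
    (h : ¬ IsUnit (algebraMap E (Module.End E M) β - x)) :
    ∃ χ : Algebra.adjoin E s →ₐ[E] E, χ ⟨x, hx⟩ = β := by
  letI : CommRing (Algebra.adjoin E s) := Algebra.adjoinCommRingOfComm E hs
  set u : Algebra.adjoin E s := algebraMap E _ β - ⟨x, hx⟩ with hu
  have h1 : u ∈ nonunits (Algebra.adjoin E s) := by
    intro hc
    apply h
    have h2 := hc.map (Algebra.adjoin E s).val
    exact h2
  obtain ⟨m, hm, hum⟩ := exists_max_ideal_of_mem_nonunits h1
  letI : Field (Algebra.adjoin E s ⧸ m) := Ideal.Quotient.field m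
  haveI : Module.Finite E (Algebra.adjoin E s ⧸ m) :=
    Module.Finite.of_surjective (Ideal.Quotient.mkₐ E m).toLinearMap
      (Ideal.Quotient.mkₐ_surjective E m)
  haveI : Algebra.IsIntegral E (Algebra.adjoin E s ⧸ m) := Algebra.IsIntegral.of_finite _ _
  have hb : Function.Bijective (algebraMap E (Algebra.adjoin E s ⧸ m)) :=
    IsAlgClosed.algebraMap_bijective_of_isIntegral
  let e : E ≃ₐ[E] (Algebra.adjoin E s ⧸ m) :=
    AlgEquiv.ofBijective (Algebra.ofId E (Algebra.adjoin E s ⧸ m)) hb
  refine ⟨(e.symm : _ →ₐ[E] E).comp (Ideal.Quotient.mkₐ E m), ?_⟩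
  have h3 : Ideal.Quotient.mkₐ E m u = 0 := Ideal.Quotient.eq_zero_iff_mem.2 hum
  rw [hu, map_sub, AlgHom.commutes, sub_eq_zero] at h3
  show e.symm (Ideal.Quotient.mkₐ E m ⟨x, hx⟩) = β
  rw [← h3, AlgEquiv.commutes]
  rfl

end char

section ten

variable {E ι W : Type} [Field E] [Fintype ι] {V : ι → Type}
  [∀ i, AddCommGroup (V i)] [∀ i, Module E (V i)] [AddCommGroup W] [Module E W]

/-- the endomorphism `⨂ T i ⊗ S` -/
noncomputable def tmap (T : ∀ i, Module.End E (V i)) (S : Module.End E W) :
    Module.End E ((⨂[E] i, V i) ⊗[E] W) :=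
  TensorProduct.map (PiTensorProduct.map T) S

theorem tmap_mul (T T' : ∀ i, Module.End E (V i)) (S S' : Module.End E W) :
    tmap T S * tmap T' S' = tmap (T * T') (S * S') := by
  unfold tmap
  have h1 : PiTensorProduct.map (T * T') =
      PiTensorProduct.map T * PiTensorProduct.map T' := PiTensorProduct.map_mul T T'
  rw [h1, TensorProduct.map_mul]

theorem tmap_one : tmap (1 : ∀ i, Module.End E (V i)) (1 : Module.End E W) = 1 := by
  unfold tmap
  have h1 : PiTensorProduct.map (1 : ∀ i, Module.End E (V i)) = 1 := PiTensorProduct.map_one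
  rw [h1]
  exact TensorProduct.map_one

theorem tmap_pow (T : ∀ i, Module.End E (V i)) (S : Module.End E W) (n : ℕ) :
    tmap T S ^ n = tmap (T ^ n) (S ^ n) := by
  induction n with
  | zero => rw [pow_zero, pow_zero, pow_zero, tmap_one]
  | succ n ih => rw [pow_succ, ih, tmap_mul, pow_succ, pow_succ]

variable [DecidableEq ι]

theorem tmap_single_add (i : ι) (a b : Module.End E (V i)) :
    tmap (W := W) (Pi.mulSingle i (a + b)) 1 =
      tmap (Pi.mulSingle i a) 1 + tmap (Pi.mulSingle i b) 1 := by
  unfold tmap Pi.mulSingle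
  have h1 := PiTensorProduct.map_update_add (R := E) (fun j => (1 : Module.End E (V j))) i a b
  have h2 : PiTensorProduct.map (Function.update (1 : ∀ j, Module.End E (V j)) i (a + b)) =
      PiTensorProduct.map (Function.update (1 : ∀ j, Module.End E (V j)) i a) +
        PiTensorProduct.map (Function.update (1 : ∀ j, Module.End E (V j)) i b) := h1
  rw [h2, TensorProduct.map_add_left]

theorem tmap_single_smul (i : ι) (c : E) (a : Module.End E (V i)) :
    tmap (W := W) (Pi.mulSingle i (c • a)) 1 = c • tmap (Pi.mulSingle i a) 1 := by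
  unfold tmap Pi.mulSingle
  have h1 := PiTensorProduct.map_update_smul (R := E) (fun j => (1 : Module.End E (V j))) i c a
  have h2 : PiTensorProduct.map (Function.update (1 : ∀ j, Module.End E (V j)) i (c • a)) =
      c • PiTensorProduct.map (Function.update (1 : ∀ j, Module.End E (V j)) i a) := h1
  rw [h2, TensorProduct.map_smul_left]

/-- the algebra homomorphism from the endomorphisms of one factor -/
noncomputable def single (W : Type) [AddCommGroup W] [Module E W] (i : ι) :
    Module.End E (V i) →ₐ[E] Module.End E ((⨂[E] i, V i) ⊗[E] W) :=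
  AlgHom.ofLinearMap
    { toFun := fun a => tmap (Pi.mulSingle i a) 1
      map_add' := tmap_single_add i
      map_smul' := fun c a => tmap_single_smul i c a }
    (by
      show tmap (Pi.mulSingle i 1) 1 = 1
      rw [Pi.mulSingle_one, tmap_one])
    (by
      intro a b
      show tmap (Pi.mulSingle i (a * b)) 1 = tmap (Pi.mulSingle i a) 1 * tmap (Pi.mulSingle i b) 1
      rw [tmap_mul, Pi.mulSingle_mul, one_mul])

/-- the algebra homomorphism from the endomorphisms of the last factor -/
noncomputable def last (V : ι → Type) [∀ i, AddCommGroup (V i)] [∀ i, Module E (V i)] :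
    Module.End E W →ₐ[E] Module.End E ((⨂[E] i, V i) ⊗[E] W) :=
  AlgHom.ofLinearMap
    { toFun := fun a => tmap 1 a
      map_add' := fun a b => TensorProduct.map_add_right _ _ _
      map_smul' := fun c a => TensorProduct.map_smul_right _ _ _ }
    (by
      show tmap 1 1 = 1
      rw [tmap_one])
    (by
      intro a b
      show tmap 1 (a * b) = tmap 1 a * tmap 1 b
      rw [tmap_mul, one_mul])

/-- **The eigenvalues of a tensor product.** -/
theorem eigen_tmap [IsAlgClosed E] [∀ i, FiniteDimensional E (V i)] [FiniteDimensional E W]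
    (T : ∀ i, Module.End E (V i)) (S : Module.End E W) (n : ℕ) {β : E}
    (h : ¬ IsUnit (algebraMap E (Module.End E ((⨂[E] i, V i) ⊗[E] W)) β - tmap T S ^ n)) :
    ∃ (α : ι → E) (γ : E), (∀ i, (T i).charpoly.eval (α i) = 0) ∧ S.charpoly.eval γ = 0 ∧
      ((∏ i, α i) * γ) ^ n = β := by
  classical
  let s : Set (Module.End E ((⨂[E] i, V i) ⊗[E] W)) :=
    {x | ∃ (a : ι → ℕ) (b : ℕ), x = tmap (fun i => T i ^ a i) (S ^ b)}
  have hs : ∀ a ∈ s, ∀ b ∈ s, a * b = b * a := by
    rintro _ ⟨a, b, rfl⟩ _ ⟨a', b', rfl⟩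
    rw [tmap_mul, tmap_mul, ← pow_add, ← pow_add, add_comm b]
    congr 1
    funext i
    simp only [Pi.mul_apply, ← pow_add, add_comm]
  have hmem : ∀ (a : ι → ℕ) (b : ℕ), tmap (fun i => T i ^ a i) (S ^ b) ∈ Algebra.adjoin E s :=
    fun a b => Algebra.subset_adjoin ⟨a, b, rfl⟩
  have hx : tmap T S ^ n ∈ Algebra.adjoin E s := by
    rw [tmap_pow]
    exact hmem (fun _ => n) n
  obtain ⟨χ, hχ⟩ := exists_char hs hx h
  -- the values
  have hTi : ∀ i, tmap (Pi.mulSingle i (T i)) (1 : Module.End E W) ∈ Algebra.adjoin E s := by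
    intro i
    have h1 := hmem (Pi.single i 1) 0
    have h2 : (fun j => T j ^ (Pi.single i 1 : ι → ℕ) j) = Pi.mulSingle i (T i) := by
      funext j
      by_cases hj : j = i
      · subst hj; simp
      · rw [Pi.single_eq_of_ne hj, Pi.mulSingle_eq_of_ne hj, pow_zero]
    rwa [h2, pow_zero] at h1
  have hS : tmap (1 : ∀ i, Module.End E (V i)) S ∈ Algebra.adjoin E s := by
    have h1 := hmem (fun _ => 0) 1
    have h2 : (fun j => T j ^ (0 : ℕ)) = (1 : ∀ i, Module.End E (V i)) := by
      funext j; rw [pow_zero]; rfl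
    rwa [h2, pow_one] at h1
  have hroot : ∀ (B : Type) [Ring B] [Algebra E B]
      (φ : B →ₐ[E] Module.End E ((⨂[E] i, V i) ⊗[E] W)) (t : B) (p : Polynomial E)
      (ht : φ t ∈ Algebra.adjoin E s), Polynomial.aeval t p = 0 →
      p.eval (χ ⟨φ t, ht⟩) = 0 := by
    intro B _ _ φ t p ht hp
    have h1 : Polynomial.aeval (⟨φ t, ht⟩ : Algebra.adjoin E s) p = 0 := by
      apply Subtype.val_injective
      have h2 : ((Polynomial.aeval (⟨φ t, ht⟩ : Algebra.adjoin E s) p : Algebra.adjoin E s) :
          Module.End E ((⨂[E] i, V i) ⊗[E] W)) = Polynomial.aeval (φ t) p :=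
        (Polynomial.aeval_algHom_apply (Algebra.adjoin E s).val
          (⟨φ t, ht⟩ : Algebra.adjoin E s) p).symm
      rw [h2, Polynomial.aeval_algHom_apply, hp, map_zero]
      rfl
    have h3 := congrArg χ h1
    rw [← Polynomial.aeval_algHom_apply, map_zero] at h3
    rwa [Polynomial.coe_aeval_eq_eval] at h3
  refine ⟨fun i => χ ⟨_, hTi i⟩, χ ⟨_, hS⟩, fun i => ?_, ?_, ?_⟩
  · exact hroot _ (single W i) (T i) _ (hTi i) (LinearMap.aeval_self_charpoly _)
  · exact hroot _ (last V) S _ hS (LinearMap.aeval_self_charpoly _)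
  · -- the product
    have hprod : ∀ t : Finset ι, ∃ ht : tmap (fun i => if i ∈ t then T i else 1) S ∈
        Algebra.adjoin E s, χ ⟨_, ht⟩ = (∏ i ∈ t, χ ⟨_, hTi i⟩) * χ ⟨_, hS⟩ := by
      intro t
      induction t using Finset.induction_on with
      | empty =>
        have h1 : (fun i => if i ∈ (∅ : Finset ι) then T i else 1) = 1 := by
          funext i; simp
        rw [h1]
        exact ⟨hS, by simp⟩
      | insert j t hj ih =>
        obtain ⟨ht, hv⟩ := ih
        have h1 : tmap (fun i => if i ∈ insert j t then T i else 1) S =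
            tmap (Pi.mulSingle j (T j)) 1 * tmap (fun i => if i ∈ t then T i else 1) S := by
          rw [tmap_mul, one_mul]
          congr 1
          funext i
          by_cases hi : i = j
          · subst hi; simp [hj]
          · simp [Pi.mulSingle_eq_of_ne hi, hi]
        have h2 : tmap (fun i => if i ∈ insert j t then T i else 1) S ∈ Algebra.adjoin E s := by
          rw [h1]; exact mul_mem (hTi j) ht
        refine ⟨h2, ?_⟩
        have h3 : (⟨_, h2⟩ : Algebra.adjoin E s) = ⟨_, hTi j⟩ * ⟨_, ht⟩ := Subtype.ext h1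
        rw [h3, map_mul, hv, Finset.prod_insert hj, mul_assoc]
    obtain ⟨ht, hv⟩ := hprod Finset.univ
    have h1 : (fun i => if i ∈ (Finset.univ : Finset ι) then T i else 1) = T := by
      funext i; simp
    have h2 : ∃ ht : tmap T S ∈ Algebra.adjoin E s, χ ⟨_, ht⟩ =
        (∏ i, χ ⟨_, hTi i⟩) * χ ⟨_, hS⟩ := by
      have h3 := hprod Finset.univ
      rwa [h1] at h3
    obtain ⟨ht', hv'⟩ := h2
    rw [← hv', ← map_pow, ← hχ]
    rfl

end ten

end Pool.Agent.V11322.TN
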