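import Pool.Agent.TH639.SN.Rep
import Pool.Agent.V11322.TN.Ten

set_option autoImplicit false

/-!
# Frobenius eigenvalues on tensor products of the cohomology of cyclic coverings of `ℓ`-power degree
-/

namespace Pool.Agent.V11322.TN

open Pool.Agent.TH639.SN Pool.Agent.TH639.SC PowerSeries
open Pool.Agent.TH639.SG (eq_one_of_pow red_char')
open Pool.Agent.W313.Hyp Pool.Agent.W343.BSD
open scoped TensorProduct

/-- a root of the characteristic polynomial, and its reduction -/
theorem root_data {E V : Type} [Field E] [AddCommGroup V] [Module E V]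
    [FiniteDimensional E V] (t : Module.End E V) (Q : Polynomial (integralClosure ℤ E))
    (hQ : Q.map (algebraMap (integralClosure ℤ E) E) = t.charpoly.reverse) {α : E}
    (hα : t.charpoly.eval α = 0) :
    ∃ a : integralClosure ℤ E, algebraMap (integralClosure ℤ E) E a = α ∧
      ∀ (κ : Type) [Field κ] (ρ : integralClosure ℤ E →+* κ), ρ a ≠ 0 →
        (Q.map ρ).eval (ρ a)⁻¹ = 0 := by
  classical
  set φ := algebraMap (integralClosure ℤ E) E with hφd
  have hφ : Function.Injective φ := Subtype.val_injective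
  set N := t.charpoly.natDegree with hN
  set p : Polynomial (integralClosure ℤ E) := Q.reflect N with hp
  have h1 : p.map φ = t.charpoly := by
    rw [hp, ← Polynomial.reflect_map, hQ, Polynomial.reverse, ← hN, Polynomial.reflect_reflect]
  have h2 : p.Monic := Polynomial.monic_of_injective hφ (by rw [h1]; exact t.charpoly_monic)
  have h3 : IsIntegral (integralClosure ℤ E) α := ⟨p, h2, by
    rw [← Polynomial.eval_map]
    have h4 : Polynomial.map (algebraMap (integralClosure ℤ E) E) p = t.charpoly := h1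
    rw [h4, hα]⟩
  have h5 : IsIntegral ℤ α := isIntegral_trans (A := integralClosure ℤ E) α h3
  refine ⟨⟨α, h5⟩, rfl, fun κ _ ρ hne => ?_⟩
  have h6 : p.eval (⟨α, h5⟩ : integralClosure ℤ E) = 0 := by
    apply hφ
    rw [map_zero, ← Polynomial.eval₂_hom, ← Polynomial.eval_map, h1]
    exact hα
  have h7 : (p.map ρ).eval (ρ ⟨α, h5⟩) = 0 := by
    rw [Polynomial.eval_map, Polynomial.eval₂_hom, h6, map_zero]
  have h8 : (p.map ρ).natDegree ≤ N := by
    refine (Polynomial.natDegree_map_le).trans ?_
    rw [hN, ← h1, Polynomial.natDegree_map_eq_of_injective hφ]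
  letI : Invertible (ρ ⟨α, h5⟩) := invertibleOfNonzero hne
  have h9 := Polynomial.eval₂_reflect_mul_pow (RingHom.id κ) (ρ ⟨α, h5⟩) N (p.map ρ) h8
  rw [Polynomial.eval₂_id, Polynomial.eval₂_id, h7, invOf_eq_inv] at h9
  have h10 := (mul_eq_zero.1 h9).resolve_right (pow_ne_zero _ hne)
  have h11 : Polynomial.reflect N (p.map ρ) = Q.map ρ := by
    rw [Polynomial.reflect_map, hp, Polynomial.reflect_reflect]
  rwa [h11] at h10

section defs

variable {k : Type} [Field k]

/-- The zeta function of the affine hypersurface `F = 0` in the affine space of dimension `m` is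
`L(T) / (1 - q ^ w T)` for even `m` and `1 / (L(T) (1 - q ^ w T))` for odd `m`, for some `w`. -/
def IsHypersurfacePolynomial {m : ℕ} (F : MvPolynomial (Fin m) k) (L : Polynomial ℤ) : Prop :=
  ∃ w : ℕ,
    (Even m ∧ zetaInv m F * (L : PowerSeries ℤ) =
      ((1 - Polynomial.C ((Nat.card k : ℤ) ^ w) * Polynomial.X : Polynomial ℤ) :
        PowerSeries ℤ)) ∨
    (Odd m ∧ zetaInv m F = (L : PowerSeries ℤ) *
      ((1 - Polynomial.C ((Nat.card k : ℤ) ^ w) * Polynomial.X : Polynomial ℤ) :
        PowerSeries ℤ))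

/-- The product of the `L`-functions of the Kummer sheaves for the polynomial `F` and the characters
in the finite set `J` is `det (1 - X T) ^ (-1)` for even `m` and `det (1 - X T)` for odd `m`. (The
inverse of the `L`-function is `charProduct`, the product over the closed points.) -/
def IsKummerFrobenius {E : Type} [Field E] {V : Type} [AddCommGroup V] [Module E V]
    [FiniteDimensional E V] {m : ℕ} (F : MvPolynomial (Fin m) k)
    (J : Finset (MulChar k (integralClosure ℤ E))) (T : Module.End E V) : Prop :=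
  (Even m ∧ PowerSeries.map (algebraMap (integralClosure ℤ E) E)
    (∏ χ ∈ J, charProduct χ m F) = (T.charpoly.reverse : PowerSeries E)) ∨
  (Odd m ∧ PowerSeries.map (algebraMap (integralClosure ℤ E) E)
    (∏ χ ∈ J, charProduct χ m F) * (T.charpoly.reverse : PowerSeries E) = 1)

end defs

/-- the polynomial with integral coefficients and its reduction -/
theorem exists_Q {E : Type} [Field E] {k : Type} [Field k] [Finite k]
    {ℓ : ℕ} (hℓ : ℓ.Prime) {m : ℕ} {F : MvPolynomial (Fin m) k} {L : Polynomial ℤ}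
    (hL : IsHypersurfacePolynomial F L) {J : Finset (MulChar k (integralClosure ℤ E))} {a : ℕ}
    (hJ : ∀ χ ∈ J, χ ^ (ℓ ^ a) = 1) {V : Type} [AddCommGroup V] [Module E V]
    [FiniteDimensional E V] {T : Module.End E V} (hT : IsKummerFrobenius F J T) :
    ∃ Q : Polynomial (integralClosure ℤ E),
      Q.map (algebraMap (integralClosure ℤ E) E) = T.charpoly.reverse ∧
      ∀ (κ : Type) [Field κ] [CharP κ ℓ] (ρ : integralClosure ℤ E →+* κ),
        ((Nat.card k : ℕ) : κ) = 1 → Q.map ρ = (L.map (Int.castRingHom κ)) ^ J.card := by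
  classical
  have hFp : Fact ℓ.Prime := ⟨hℓ⟩
  set φ : integralClosure ℤ E →+* E := algebraMap (integralClosure ℤ E) E with hφd
  have hφ : Function.Injective φ := Subtype.val_injective
  have hone : ∀ (κ : Type) [Field κ], (1 - X : PowerSeries κ) ≠ 0 := by
    intro κ _
    have := one_sub_ne (R := κ) one_pos
    rwa [pow_one] at this
  have hlin : ∀ (κ : Type) [Field κ] (w : ℕ), ((Nat.card k : ℕ) : κ) = 1 →
      PowerSeries.map (Int.castRingHom κ)
        ((1 - Polynomial.C ((Nat.card k : ℤ) ^ w) * Polynomial.X : Polynomial ℤ) :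
        PowerSeries ℤ) = 1 - X := by
    intro κ _ w hq
    rw [← Polynomial.polynomial_map_coe, Polynomial.map_sub, Polynomial.map_one,
      Polynomial.map_mul, Polynomial.map_C, Polynomial.map_X, map_pow, eq_intCast,
      Int.cast_natCast, hq, one_pow, Polynomial.C_1, one_mul, Polynomial.coe_sub,
      Polynomial.coe_one, Polynomial.coe_X]
  obtain ⟨w, hL⟩ := hL
  rcases hT with ⟨hm, hT⟩ | ⟨hm, hT⟩
  · rcases hL with ⟨_, hL⟩ | ⟨hm', _⟩
    swap
    · exact absurd hm (Nat.not_even_iff_odd.2 hm')
    obtain ⟨Q, hQ, hQT⟩ := exists_poly hφ hT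
    refine ⟨Q, hQT, fun κ _ _ ρ hq => ?_⟩
    have h2 : PowerSeries.map (Int.castRingHom κ) (zetaInv m F) *
        ((L.map (Int.castRingHom κ) : Polynomial κ) : PowerSeries κ) = 1 - X := by
      have h3 := congrArg (PowerSeries.map (Int.castRingHom κ)) hL
      rwa [map_mul, hlin κ w hq, ← Polynomial.polynomial_map_coe] at h3
    have h4 : ∀ χ ∈ J, PowerSeries.map ρ (charProduct χ m F) =
        ((L.map (Int.castRingHom κ) : Polynomial κ) : PowerSeries κ) := by
      intro χ hχ
      have h5 := identityN ρ (fun u hu => red_char' ρ (hJ χ hχ) hu) hq F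
      have hz : PowerSeries.map (Int.castRingHom κ) (zetaInv m F) ≠ 0 := by
        intro h
        rw [h, mul_zero] at h5
        exact hone κ h5.symm
      apply mul_right_cancel₀ hz
      rw [h5, ← h2, mul_comm]
    apply Polynomial.coe_injective κ
    rw [Polynomial.polynomial_map_coe, hQ, map_prod, Finset.prod_congr rfl h4,
      Finset.prod_const, Polynomial.coe_pow]
  · rcases hL with ⟨hm', _⟩ | ⟨_, hL⟩
    · exact absurd hm (Nat.not_odd_iff_even.2 hm')
    set G0 : PowerSeries (integralClosure ℤ E) := ∏ χ ∈ J, charProduct χ m F with hG0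
    have hc : constantCoeff G0 = 1 := by
      apply hφ
      have h1 := congrArg constantCoeff hT
      rw [map_mul, map_one] at h1
      have h2 : constantCoeff ((T.charpoly.reverse : Polynomial E) : PowerSeries E) = 1 := by
        rw [← PowerSeries.coeff_zero_eq_constantCoeff_apply, Polynomial.coeff_coe,
          Polynomial.coeff_zero_reverse]
        exact T.charpoly_monic
      rw [h2, mul_one, ← PowerSeries.coeff_zero_eq_constantCoeff_apply, PowerSeries.coeff_map,
        PowerSeries.coeff_zero_eq_constantCoeff_apply] at h1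
      rw [h1, map_one]
    set S1 : PowerSeries (integralClosure ℤ E) := PowerSeries.invOfUnit G0 1 with hS1
    have hGS : G0 * S1 = 1 := PowerSeries.mul_invOfUnit G0 1 (by rw [hc]; rfl)
    have hS1T : PowerSeries.map φ S1 = (T.charpoly.reverse : PowerSeries E) := by
      have h1 := congrArg (PowerSeries.map φ) hGS
      rw [map_mul, map_one] at h1
      have h2 : PowerSeries.map φ G0 ≠ 0 := by
        intro h
        rw [h, zero_mul] at h1
        exact zero_ne_one h1
      apply mul_left_cancel₀ h2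
      rw [h1]
      exact hT.symm
    obtain ⟨Q, hQ, hQT⟩ := exists_poly hφ hS1T
    refine ⟨Q, hQT, fun κ _ _ ρ hq => ?_⟩
    have h2 : PowerSeries.map (Int.castRingHom κ) (zetaInv m F) =
        ((L.map (Int.castRingHom κ) : Polynomial κ) : PowerSeries κ) * (1 - X) := by
      have h3 := congrArg (PowerSeries.map (Int.castRingHom κ)) hL
      rwa [map_mul, hlin κ w hq, ← Polynomial.polynomial_map_coe] at h3
    have h4 : ∀ χ ∈ J, PowerSeries.map ρ (charProduct χ m F) *
        ((L.map (Int.castRingHom κ) : Polynomial κ) : PowerSeries κ) = 1 := by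
      intro χ hχ
      have h5 := identityN ρ (fun u hu => red_char' ρ (hJ χ hχ) hu) hq F
      rw [h2, ← mul_assoc] at h5
      apply mul_right_cancel₀ (hone κ)
      rw [h5, one_mul]
    have h6 : PowerSeries.map ρ G0 *
        (((L.map (Int.castRingHom κ)) ^ J.card : Polynomial κ) : PowerSeries κ) = 1 := by
      rw [hG0, map_prod, Polynomial.coe_pow, ← Finset.prod_const, ← Finset.prod_mul_distrib]
      exact Finset.prod_eq_one h4
    have h7 : PowerSeries.map ρ G0 * ((Q.map ρ : Polynomial κ) : PowerSeries κ) = 1 := by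
      rw [Polynomial.polynomial_map_coe, hQ, ← map_mul, hGS, map_one]
    apply Polynomial.coe_injective κ
    have h8 : PowerSeries.map ρ G0 ≠ 0 := by
      intro h
      rw [h, zero_mul] at h7
      exact zero_ne_one h7
    apply mul_left_cancel₀ h8
    rw [h6, h7]

/-- For no nonempty subset `S`, no family of roots `x i` modulo `ℓ` of the polynomials `L i`,
`i ∈ S`, and no root `y` of `R` modulo a prime over `ℓ` the product of the `x i` and `y` is equal to
one. -/
def NonResonant {E : Type} [Field E] {ι : Type} (ℓ : ℕ) (L : ι → Polynomial ℤ)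
    (R : Polynomial (integralClosure ℤ E)) : Prop :=
  ∀ (κ : Type) [Field κ] [CharP κ ℓ] (ρ : integralClosure ℤ E →+* κ) (S : Finset ι),
    S.Nonempty → ∀ (x : S → κ) (y : κ),
    (∀ i : S, ((L i).map (Int.castRingHom κ)).eval (x i) = 0) → (R.map ρ).eval y = 0 →
      (∏ i, x i) * y ≠ 1

/-- **The eigenvalues of Frobenius on the tensor products.** -/
theorem no_tate {E : Type} [Field E] [CharZero E] [IsAlgClosed E] {k : Type} [Field k] [Finite k]
    {ℓ : ℕ} (hℓ : ℓ.Prime) (hd : ℓ ∣ Nat.card k - 1) {ι : Type}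
    {m : ι → ℕ} {F : ∀ i, MvPolynomial (Fin (m i)) k} {L : ι → Polynomial ℤ}
    (hL : ∀ i, IsHypersurfacePolynomial (F i) (L i))
    {J : ι → Finset (MulChar k (integralClosure ℤ E))} {a : ι → ℕ}
    (hJ : ∀ i, ∀ χ ∈ J i, χ ^ (ℓ ^ a i) = 1)
    {V : ι → Type} [∀ i, AddCommGroup (V i)] [∀ i, Module E (V i)]
    [∀ i, FiniteDimensional E (V i)] {W : Type} [AddCommGroup W] [Module E W]
    [FiniteDimensional E W] {T : ∀ i, Module.End E (V i)} {U : Module.End E W}
    (hT : ∀ i, IsKummerFrobenius (F i) (J i) (T i))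
    {R : Polynomial (integralClosure ℤ E)}
    (hR : R.map (algebraMap (integralClosure ℤ E) E) = U.charpoly.reverse)
    (hres : NonResonant ℓ L R) (S : Finset ι) (hS : S.Nonempty) (s c : ℕ) :
    IsUnit (algebraMap E (Module.End E ((⨂[E] i : S, V i) ⊗[E] W)) ((Nat.card k : E) ^ c) -
      tmap (fun i : S => T i) U ^ (ℓ ^ s)) := by
  classical
  by_contra hcon
  have hFp : Fact ℓ.Prime := ⟨hℓ⟩
  obtain ⟨α, γ, hα, hγ, hprod⟩ := eigen_tmap (fun i : S => T i) U (ℓ ^ s) hcon
  obtain ⟨κ, _, _, ρ, hq⟩ := exists_hom (A := integralClosure ℤ E) hℓ hd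
  set φ : integralClosure ℤ E →+* E := algebraMap (integralClosure ℤ E) E with hφd
  have hφ : Function.Injective φ := Subtype.val_injective
  choose Q hQT hQκ using fun i : S => exists_Q (E := E) hℓ (hL i) (hJ i) (hT i)
  choose x hx hxρ using fun i : S => root_data (T i) (Q i) (hQT i) (hα i)
  obtain ⟨y, hy, hyρ⟩ := root_data U R hR hγ
  have hone : (∏ i, ρ (x i)) * ρ y = 1 := by
    apply eq_one_of_pow (ℓ := ℓ) (m := s)
    rw [← map_prod, ← map_mul, ← map_pow]
    have h1 : ((∏ i, x i) * y) ^ (ℓ ^ s) = (Nat.card k : integralClosure ℤ E) ^ c := by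
      apply hφ
      rw [map_pow, map_mul, map_prod, map_pow, map_natCast, ← hprod]
      have h2 : ∀ i, φ (x i) = α i := hx
      have h3 : φ y = γ := hy
      simp only [h2, h3]
    rw [h1, map_pow, map_natCast, hq, one_pow]
  have hxne : ∀ i, ρ (x i) ≠ 0 := by
    intro i h0
    rw [Finset.prod_eq_zero (Finset.mem_univ i) h0, zero_mul] at hone
    exact zero_ne_one hone
  have hyne : ρ y ≠ 0 := by
    intro h0
    rw [h0, mul_zero] at hone
    exact zero_ne_one hone
  have hroot : ∀ i : S, ((L i).map (Int.castRingHom κ)).eval (ρ (x i))⁻¹ = 0 := by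
    intro i
    have h7 := hxρ i κ ρ (hxne i)
    rw [hQκ i κ ρ hq, Polynomial.eval_pow] at h7
    exact eq_zero_of_pow_eq_zero h7
  refine hres κ ρ S hS (fun i => (ρ (x i))⁻¹) (ρ y)⁻¹ hroot (hyρ κ ρ hyne) ?_
  rw [Finset.prod_inv_distrib, ← mul_inv, hone, inv_one]

/-- No vectors and no functionals of Tate type. -/
theorem no_tate' {E : Type} [Field E] [CharZero E] [IsAlgClosed E] {k : Type} [Field k] [Finite k]
    {ℓ : ℕ} (hℓ : ℓ.Prime) (hd : ℓ ∣ Nat.card k - 1) {ι : Type}
    {m : ι → ℕ} {F : ∀ i, MvPolynomial (Fin (m i)) k} {L : ι → Polynomial ℤ}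
    (hL : ∀ i, IsHypersurfacePolynomial (F i) (L i))
    {J : ι → Finset (MulChar k (integralClosure ℤ E))} {a : ι → ℕ}
    (hJ : ∀ i, ∀ χ ∈ J i, χ ^ (ℓ ^ a i) = 1)
    {V : ι → Type} [∀ i, AddCommGroup (V i)] [∀ i, Module E (V i)]
    [∀ i, FiniteDimensional E (V i)] {W : Type} [AddCommGroup W] [Module E W]
    [FiniteDimensional E W] {T : ∀ i, Module.End E (V i)} {U : Module.End E W}
    (hT : ∀ i, IsKummerFrobenius (F i) (J i) (T i))
    {R : Polynomial (integralClosure ℤ E)}
    (hR : R.map (algebraMap (integralClosure ℤ E) E) = U.charpoly.reverse)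
    (hres : NonResonant ℓ L R) (S : Finset ι) (hS : S.Nonempty) (s c : ℕ) :
    (∀ v : (⨂[E] i : S, V i) ⊗[E] W,
      (tmap (fun i : S => T i) U ^ (ℓ ^ s)) v = (Nat.card k : E) ^ c • v → v = 0) ∧
    ∀ f : ((⨂[E] i : S, V i) ⊗[E] W) →ₗ[E] E,
      (∀ v, f ((tmap (fun i : S => T i) U ^ (ℓ ^ s)) v) = (Nat.card k : E) ^ c * f v) →
        f = 0 := by
  have h := no_tate hℓ hd hL hJ hT hR hres S hS s c
  constructor
  · intro v hv
    by_contra h0
    exact not_unit_of_vec h0 hv h
  · intro f hf
    by_contra h0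
    exact not_unit_of_fun h0 hf h

end Pool.Agent.V11322.TN
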